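import Mathlib

/-!
# Contact type energy levels below the critical value of the universal cover

The closed 3-manifold `M = ℝ^3 / Γ`, `Γ` a lattice in the solvable group `Sol`, and the Hamiltonian
`H = (p₀² + (e^{x₀} p₁)² + (e^{-x₀} p₂ - 2)²) / 2`.  Here `e₀ = 0`, `c_u = 2` and the level
`{H = 1/2}` is of contact type.
-/

open scoped ContDiff
open Set

noncomputable section

namespace Pool.Agent.Results.MP_410757_gt.SolContact

/-! ## General definitions

Throughout `E` is a Euclidean space (below `E = ℝ^3`).  The cotangent bundle `T*E` is identified with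
`E × E`: the pair `(x, p)` is the covector `v ↦ ⟪p, v⟫` at the point `x`. -/

section General

variable {E : Type*} [NormedAddCommGroup E] [InnerProductSpace ℝ E]

/-- `Γ` is a group of smooth diffeomorphisms of the Euclidean space `E` acting freely and properly
discontinuously with compact quotient, so that `M = E / Γ` is a closed connected smooth manifold of
the same dimension as `E`, with universal covering `E`. -/
structure IsDeckGroup (Γ : Subgroup (Equiv.Perm E)) : Prop where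
  smooth : ∀ g ∈ Γ, ContDiff ℝ ∞ (g : E → E)
  free : ∀ g ∈ Γ, ∀ x, g x = x → g = 1
  properlyDiscontinuous : ∀ K : Set E, IsCompact K →
    {g : Equiv.Perm E | g ∈ Γ ∧ ∃ x ∈ K, g x ∈ K}.Finite
  cocompact : ∃ K : Set E, IsCompact K ∧ ∀ x, ∃ g ∈ Γ, g x ∈ K

/-- The canonical symplectic form `ω = ∑ dpᵢ ∧ dxᵢ` of `T*E`. -/
def omega (v w : E × E) : ℝ := inner ℝ v.2 w.1 - inner ℝ w.2 v.1

/-- The exterior derivative of a 1-form `θ`, evaluated on the tangent vectors `v`, `w`. -/
def extD {F : Type*} [NormedAddCommGroup F] [NormedSpace ℝ F] (θ : F → (F →L[ℝ] ℝ))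
    (z v w : F) : ℝ := fderiv ℝ θ z v w - fderiv ℝ θ z w v

/-- The 1-form `θ` is smooth on a neighbourhood of the set `S`. -/
def IsSmoothNear {F : Type*} [NormedAddCommGroup F] [NormedSpace ℝ F] (S : Set F)
    (θ : F → (F →L[ℝ] ℝ)) : Prop :=
  ∃ U : Set F, IsOpen U ∧ S ⊆ U ∧ ContDiffOn ℝ ∞ θ U

/-- At the point `z` the pullback `φ*θ` of the 1-form `θ` equals `θ`. -/
def PullbackEqAt {F : Type*} [NormedAddCommGroup F] [NormedSpace ℝ F] (φ : F → F)
    (θ : F → (F →L[ℝ] ℝ)) (z : F) : Prop := ∀ v, θ (φ z) (fderiv ℝ φ z v) = θ z v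

/-- The energy level `{H = h}`. -/
def level {F : Type*} (H : F → ℝ) (h : ℝ) : Set F := {z | H z = h}

/-- `v` is tangent to the level of `H` through `z`. -/
def IsTangent {F : Type*} [NormedAddCommGroup F] [NormedSpace ℝ F] (H : F → ℝ) (z v : F) : Prop :=
  fderiv ℝ H z v = 0

/-- The values `k` with `π({H = k}) = M`: every fibre of `T*M` meets `{H = k}`.
The number `e₀` is the least such value. -/
def surjectiveLevels (H : E × E → ℝ) : Set ℝ := {k | ∀ x, ∃ p, H (x, p) = k}

variable [CompleteSpace E]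

/-- The cotangent lift of a diffeomorphism `g` of `E`: it maps a covector `p` at `x` to the
covector `p ∘ (D g (x))⁻¹ = p ∘ D g⁻¹ (g x)` at `g x`. -/
def cotLift (g : Equiv.Perm E) (z : E × E) : E × E :=
  (g z.1, (fderiv ℝ (g.symm : E → E) (g z.1)).adjoint z.2)

/-- `H` is (the lift to `T*E` of) a convex superlinear Hamiltonian on `T*M`, `M = E / Γ`: it is
`C^2`, `Γ`-invariant, its fibre Hessian is positive definite and `H(x,p) / |p| → ∞` as `|p| → ∞`,
uniformly for `x` in compact sets (hence uniformly on the compact manifold `M`). -/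
structure IsConvexSuperlinear (Γ : Subgroup (Equiv.Perm E)) (H : E × E → ℝ) : Prop where
  contDiff : ContDiff ℝ 2 H
  invariant : ∀ g ∈ Γ, ∀ z, H (cotLift g z) = H z
  convex : ∀ x p q : E, q ≠ 0 → 0 < iteratedDeriv 2 (fun s : ℝ => H (x, p + s • q)) 0
  superlinear : ∀ K : Set E, IsCompact K → ∀ C : ℝ, ∃ B : ℝ, ∀ x ∈ K,
    ∀ p : E, B ≤ ‖p‖ → C * ‖p‖ ≤ H (x, p)

/-- The Hamiltonian vector field `X_H = (∂H/∂p, -∂H/∂x)`. -/
def hamVec (H : E × E → ℝ) (z : E × E) : E × E :=
  (gradient (fun p => H (z.1, p)) z.2, -gradient (fun x => H (x, z.2)) z.1)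

/-- The level `Σ = {H = h}` in `T*M`, `M = E / Γ`, is of contact type: there is a smooth
`Γ`-invariant 1-form `θ`, defined near the lift of `Σ` to `T*E`, with `dθ = ω` on the tangent
spaces of `Σ` and `θ(X_H) > 0` on `Σ`. -/
def IsContactType (Γ : Subgroup (Equiv.Perm E)) (H : E × E → ℝ) (h : ℝ) : Prop :=
  ∃ θ : E × E → (E × E →L[ℝ] ℝ), IsSmoothNear (level H h) θ ∧
    (∀ g ∈ Γ, ∀ z ∈ level H h, PullbackEqAt (cotLift g) θ z) ∧
    (∀ z ∈ level H h, ∀ v w, IsTangent H z v → IsTangent H z w → extD θ z v w = omega v w) ∧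
    ∀ z ∈ level H h, 0 < θ z (hamVec H z)

/-- The values `k` such that `H(x, d_x u) ≤ k` for all `x`, for some smooth function `u` on the
universal covering `E`.  The critical value `c_u = inf_u sup_x H(x, d_x u)` is the infimum. -/
def subsolutionLevels (H : E × E → ℝ) : Set ℝ :=
  {k | ∃ u : E → ℝ, ContDiff ℝ ∞ u ∧ ∀ x, H (x, gradient u x) ≤ k}

end General

/-- `ℝ^3`. -/
abbrev V3 := EuclideanSpace ℝ (Fin 3)

/-- `T*ℝ^3`. -/
abbrev Phase := V3 × V3

/-! ## The group -/

open Real goldenRatio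

/-- `e^t0 = φ^2` -/
def t0 : ℝ := Real.log (φ ^ 2)

lemma exp_t0 : Real.exp t0 = φ + 1 := by
  rw [t0, Real.exp_log (by have := Real.goldenRatio_pos; positivity), Real.goldenRatio_sq]

lemma exp_neg_t0 : Real.exp (-t0) = ψ + 1 := by
  rw [Real.exp_neg, exp_t0, ← Real.goldenConj_sq, ← Real.goldenRatio_sq, ← inv_pow,
    Real.inv_goldenRatio]
  ring

lemma t0_pos : 0 < t0 := by
  apply Real.log_pos
  have := Real.one_lt_goldenRatio
  nlinarith

/-- the lattice `ℤ[φ]` in `ℝ^2` -/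
def InLat (a b : ℝ) : Prop := ∃ m n : ℤ, a = m + n * φ ∧ b = m + n * ψ

lemma inLat_up {a b : ℝ} (h : InLat a b) : InLat (Real.exp t0 * a) (Real.exp (-t0) * b) := by
  obtain ⟨m, n, ha, hb⟩ := h
  refine ⟨m + n, m + 2 * n, ?_, ?_⟩
  · rw [exp_t0, ha]; push_cast
    linear_combination (n : ℝ) * Real.goldenRatio_sq
  · rw [exp_neg_t0, hb]; push_cast
    linear_combination (n : ℝ) * Real.goldenConj_sq

lemma inLat_down {a b : ℝ} (h : InLat a b) : InLat (Real.exp (-t0) * a) (Real.exp t0 * b) := by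
  obtain ⟨m, n, ha, hb⟩ := h
  have h1 := Real.goldenRatio_add_goldenConj
  have hp := Real.goldenRatio_sq
  have hq := Real.goldenConj_sq
  refine ⟨2 * m - n, n - m, ?_, ?_⟩
  · rw [exp_neg_t0, ha]; push_cast
    have : ψ = 1 - φ := by linarith
    rw [this]
    linear_combination (-(n : ℝ)) * Real.goldenRatio_sq
  · rw [exp_t0, hb]; push_cast
    have : φ = 1 - ψ := by linarith
    rw [this]
    linear_combination (-(n : ℝ)) * Real.goldenConj_sq

lemma inLat_add {a b c d : ℝ} (h : InLat a b) (h' : InLat c d) : InLat (a + c) (b + d) := by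
  obtain ⟨m, n, ha, hb⟩ := h
  obtain ⟨m', n', hc, hd⟩ := h'
  exact ⟨m + m', n + n', by rw [ha, hc]; push_cast; ring, by rw [hb, hd]; push_cast; ring⟩

lemma inLat_neg {a b : ℝ} (h : InLat a b) : InLat (-a) (-b) := by
  obtain ⟨m, n, ha, hb⟩ := h
  exact ⟨-m, -n, by rw [ha]; push_cast; ring, by rw [hb]; push_cast; ring⟩

lemma inLat_zero : InLat 0 0 := ⟨0, 0, by simp, by simp⟩

lemma inLat_int (k : ℤ) {a b : ℝ} (h : InLat a b) :
    InLat (Real.exp (k * t0) * a) (Real.exp (-(k * t0)) * b) := by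
  induction k using Int.induction_on with
  | zero => simpa using h
  | succ i ih =>
    have := inLat_up ih
    rw [← mul_assoc, ← mul_assoc, ← Real.exp_add, ← Real.exp_add] at this
    convert! this using 2
    · congr 1; push_cast; ring
    · congr 1; push_cast; ring
  | pred i ih =>
    have := inLat_down ih
    rw [← mul_assoc, ← mul_assoc, ← Real.exp_add, ← Real.exp_add] at this
    convert! this using 2
    · congr 1; push_cast; ring
    · congr 1; push_cast; ring

/-- left translation of Sol -/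
def act (c a b : ℝ) (x : V3) : V3 :=
  !₂[x 0 + c, Real.exp c * x 1 + a, Real.exp (-c) * x 2 + b]

lemma act_act (c a b c' a' b' : ℝ) (x : V3) : act c a b (act c' a' b' x) =
    act (c + c') (a + Real.exp c * a') (b + Real.exp (-c) * b') x := by
  ext i
  fin_cases i
  · simp [act]; ring
  · simp [act, Real.exp_add]; ring
  · simp [act, Real.exp_add]; ring

lemma act_zero (x : V3) : act 0 0 0 x = x := by
  ext i
  fin_cases i <;> simp [act]

/-- the lattice of Sol -/
def Gam : Subgroup (Equiv.Perm (V3)) where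
  carrier := {g | ∃ (k : ℤ) (a b : ℝ), InLat a b ∧ ∀ x, g x = act (k * t0) a b x}
  mul_mem' := by
    rintro g g' ⟨k, a, b, hab, hg⟩ ⟨k', a', b', hab', hg'⟩
    refine ⟨k + k', a + Real.exp (k * t0) * a', b + Real.exp (-(k * t0)) * b',
      inLat_add hab (inLat_int k hab'), fun x => ?_⟩
    rw [Equiv.Perm.mul_apply, hg, hg', act_act]
    congr 1
    push_cast; ring
  one_mem' := ⟨0, 0, 0, inLat_zero, fun x => by simp [act_zero]⟩
  inv_mem' := by
    rintro g ⟨k, a, b, hab, hg⟩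
    refine ⟨-k, Real.exp (-(k * t0)) * -a, Real.exp (k * t0) * -b, ?_, fun x => ?_⟩
    · have := inLat_int (-k) (inLat_neg hab)
      push_cast at this
      rw [neg_mul, neg_neg] at this
      exact this
    · rw [Equiv.Perm.inv_eq_iff_eq, hg, act_act]
      rw [← mul_assoc, ← mul_assoc, ← Real.exp_add, ← Real.exp_add]
      have e1 : (k : ℝ) * t0 + ((-k : ℤ) : ℝ) * t0 = 0 := by push_cast; ring
      rw [e1, add_neg_cancel, neg_add_cancel, Real.exp_zero]
      simp [act_zero]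


lemma contDiff_act (c a b : ℝ) : ContDiff ℝ ∞ (act c a b) := by
  rw [contDiff_piLp]
  intro i
  have h : ∀ j, ContDiff ℝ ∞ (fun x : V3 => x j) := fun j => by fun_prop
  fin_cases i
  · exact (h 0).add contDiff_const
  · exact (contDiff_const.mul (h 1)).add contDiff_const
  · exact (contDiff_const.mul (h 2)).add contDiff_const

/-- bounds on coordinates from the norm -/
lemma abs_coord_le (x : V3) (i : Fin 3) : |x i| ≤ ‖x‖ := by
  have := PiLp.norm_apply_le x i
  simpa using this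

lemma sqrt5_pos : (0 : ℝ) < √5 := by positivity

lemma isDeckGroup_Gam : IsDeckGroup Gam where
  smooth := by
    rintro g ⟨k, a, b, -, hg⟩
    have : (g : V3 → V3) = act (k * t0) a b := funext hg
    rw [this]
    exact contDiff_act _ _ _
  free := by
    rintro g ⟨k, a, b, -, hg⟩ x hx
    rw [hg] at hx
    have h0 := congrArg (fun y : V3 => y 0) hx
    have h1 := congrArg (fun y : V3 => y 1) hx
    have h2 := congrArg (fun y : V3 => y 2) hx
    simp [act] at h0 h1 h2
    have hk : (k : ℝ) = 0 := by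
      rcases h0 with h | h
      · exact_mod_cast h
      · exact absurd h t0_pos.ne'
    rw [hk] at h1 h2
    simp at h1 h2
    apply Equiv.ext
    intro y
    rw [hg, hk, h1, h2, zero_mul, act_zero]
    rfl
  properlyDiscontinuous := by
    intro K hK
    obtain ⟨B, hB⟩ := hK.isBounded.exists_norm_le
    set B' : ℝ := max B 0 with hB'
    have hBB : ∀ x ∈ K, ‖x‖ ≤ B' := fun x hx => (hB x hx).trans (le_max_left _ _)
    have hB0 : 0 ≤ B' := le_max_right _ _
    -- integer bounds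
    obtain ⟨N1, hN1⟩ := exists_nat_gt (2 * B' / t0)
    set C : ℝ := (1 + Real.exp (N1 * t0)) * B' with hC
    have hC0 : 0 ≤ C := by positivity
    obtain ⟨N2, hN2⟩ := exists_nat_gt (3 * C)
    have hfin : ((Finset.Icc (-(N1 : ℤ)) N1 ×ˢ Finset.Icc (-(N2 : ℤ)) N2 ×ˢ
        Finset.Icc (-(N2 : ℤ)) N2 : Finset (ℤ × ℤ × ℤ)) : Set (ℤ × ℤ × ℤ)).Finite :=
      Finset.finite_toSet _
    -- the parametrisation of the group
    have hinj : ∀ z : ℤ × ℤ × ℤ, ∃ g : Equiv.Perm (V3),
        (∃ g' : Equiv.Perm (V3), ∀ x, g' x = act (z.1 * t0) (z.2.1 + z.2.2 * φ)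
          (z.2.1 + z.2.2 * ψ) x) →
        ∀ x, g x = act (z.1 * t0) (z.2.1 + z.2.2 * φ) (z.2.1 + z.2.2 * ψ) x := by
      intro z
      by_cases h : ∃ g' : Equiv.Perm (V3), ∀ x, g' x = act (z.1 * t0) (z.2.1 + z.2.2 * φ)
          (z.2.1 + z.2.2 * ψ) x
      · obtain ⟨g, hg⟩ := h
        exact ⟨g, fun _ => hg⟩
      · exact ⟨1, fun h' => absurd h' h⟩
    choose par hpar using hinj
    apply (hfin.image par).subset
    rintro g ⟨⟨k, a, b, ⟨m, n, ha, hb⟩, hg⟩, x, hx, hgx⟩
    refine ⟨(k, m, n), ?_, ?_⟩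
    · have hxn := hBB x hx
      have hgn := hBB _ hgx
      have hx0 := (abs_coord_le x 0).trans hxn
      have hx1 := (abs_coord_le x 1).trans hxn
      have hx2 := (abs_coord_le x 2).trans hxn
      have hg0 := (abs_coord_le (g x) 0).trans hgn
      have hg1 := (abs_coord_le (g x) 1).trans hgn
      have hg2 := (abs_coord_le (g x) 2).trans hgn
      rw [hg] at hg0 hg1 hg2
      simp [act] at hg0 hg1 hg2
      have ht := t0_pos
      have hk1 : |(k : ℝ)| * t0 ≤ 2 * B' := by
        have : (k : ℝ) * t0 = (x 0 + k * t0) - x 0 := by ring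
        have e : |(k : ℝ)| * t0 = |(k : ℝ) * t0| := by rw [abs_mul, abs_of_pos ht]
        rw [e, this]
        calc |x 0 + k * t0 - x 0| ≤ |x 0 + k * t0| + |x 0| := abs_sub _ _
          _ ≤ 2 * B' := by linarith
      have hk2 : |(k : ℝ)| < N1 := by
        rw [div_lt_iff₀ ht] at hN1
        by_contra h
        push Not at h
        nlinarith
      have hk3 : |(k : ℝ) * t0| ≤ N1 * t0 := by
        rw [abs_mul, abs_of_pos ht]
        nlinarith
      have hk4 := abs_le.1 hk3
      have hexp1 : Real.exp (k * t0) ≤ Real.exp (N1 * t0) := Real.exp_le_exp.2 hk4.2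
      have hexp2 : Real.exp (-(k * t0)) ≤ Real.exp (N1 * t0) :=
        Real.exp_le_exp.2 (by linarith [hk4.1])
      have ha1 : |a| ≤ C := by
        have : a = (Real.exp (k * t0) * x 1 + a) - Real.exp (k * t0) * x 1 := by ring
        rw [this]
        calc |Real.exp (k * t0) * x 1 + a - Real.exp (k * t0) * x 1|
            ≤ |Real.exp (k * t0) * x 1 + a| + |Real.exp (k * t0) * x 1| := abs_sub _ _
          _ ≤ B' + Real.exp (N1 * t0) * B' := by
              rw [abs_mul, abs_of_pos (Real.exp_pos _)]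
              gcongr
          _ = C := by rw [hC]; ring
      have hb1 : |b| ≤ C := by
        have : b = (Real.exp (-(k * t0)) * x 2 + b) - Real.exp (-(k * t0)) * x 2 := by ring
        rw [this]
        calc |Real.exp (-(k * t0)) * x 2 + b - Real.exp (-(k * t0)) * x 2|
            ≤ |Real.exp (-(k * t0)) * x 2 + b| + |Real.exp (-(k * t0)) * x 2| := abs_sub _ _
          _ ≤ B' + Real.exp (N1 * t0) * B' := by
              rw [abs_mul, abs_of_pos (Real.exp_pos _)]
              gcongr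
          _ = C := by rw [hC]; ring
      have hs5 : 2 ≤ √(5 : ℝ) := by
        rw [show (2 : ℝ) = √(2 ^ 2) by rw [Real.sqrt_sq (by norm_num)]]
        exact Real.sqrt_le_sqrt (by norm_num)
      have hn1 : |(n : ℝ)| * √5 ≤ 2 * C := by
        have e : (n : ℝ) * √5 = a - b := by
          rw [ha, hb, ← Real.goldenRatio_sub_goldenConj]; ring
        have e' : |(n : ℝ)| * √5 = |(n : ℝ) * √5| := by rw [abs_mul, abs_of_pos sqrt5_pos]
        rw [e', e]
        calc |a - b| ≤ |a| + |b| := abs_sub _ _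
          _ ≤ 2 * C := by linarith
      have hn2 : |(n : ℝ)| ≤ C := by
        have := abs_nonneg (n : ℝ)
        nlinarith
      have hm1 : |(m : ℝ)| ≤ 3 * C := by
        have e : (m : ℝ) = a - n * φ := by rw [ha]; ring
        rw [e]
        have h1 : |(n : ℝ) * φ| ≤ C * 2 := by
          rw [abs_mul, abs_of_pos Real.goldenRatio_pos]
          exact mul_le_mul hn2 Real.goldenRatio_lt_two.le Real.goldenRatio_pos.le hC0
        calc |a - n * φ| ≤ |a| + |n * φ| := abs_sub _ _
          _ ≤ 3 * C := by linarith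
      have hk5 := abs_lt.1 hk2
      have hn3 : |(n : ℝ)| < N2 := by linarith
      have hm3 : |(m : ℝ)| < N2 := by linarith
      have hn5 := abs_lt.1 hn3
      have hm5 := abs_lt.1 hm3
      simp only [Finset.coe_product, Finset.coe_Icc, mem_prod, mem_Icc]
      refine ⟨⟨?_, ?_⟩, ⟨?_, ?_⟩, ⟨?_, ?_⟩⟩
      · have := hk5.1; exact_mod_cast this.le
      · have := hk5.2; exact_mod_cast this.le
      · have := hm5.1; exact_mod_cast this.le
      · have := hm5.2; exact_mod_cast this.le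
      · have := hn5.1; exact_mod_cast this.le
      · have := hn5.2; exact_mod_cast this.le
    · have hgform : ∀ x, g x = act (k * t0) (m + n * φ) (m + n * ψ) x := by
        intro x; rw [hg, ha, hb]
      apply Equiv.ext
      intro x
      rw [hpar (k, m, n) ⟨g, hgform⟩ x, hgform x]
  cocompact := by
    refine ⟨{x | 0 ≤ x 0 ∧ x 0 ≤ t0 ∧ |x 1| ≤ 2 ∧ |x 2| ≤ 2}, ?_, ?_⟩
    · have hcl : IsClosed {x : V3 | 0 ≤ x 0 ∧ x 0 ≤ t0 ∧ |x 1| ≤ 2 ∧ |x 2| ≤ 2} := by
        have h : ∀ j, Continuous (fun x : V3 => x j) := fun j => by fun_prop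
        exact (isClosed_le continuous_const (h 0)).inter
          ((isClosed_le (h 0) continuous_const).inter
            ((isClosed_le (h 1).abs continuous_const).inter
              (isClosed_le (h 2).abs continuous_const)))
      apply Metric.isCompact_of_isClosed_isBounded hcl
      rw [isBounded_iff_forall_norm_le]
      refine ⟨t0 + 4, fun x hx => ?_⟩
      obtain ⟨h0, h0', h1, h2⟩ := hx
      have ht := t0_pos
      have : ‖x‖ ^ 2 ≤ (t0 + 4) ^ 2 := by
        rw [EuclideanSpace.norm_sq_eq, Fin.sum_univ_three]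
        simp only [Real.norm_eq_abs, sq_abs]
        have e1 : (x 1) ^ 2 ≤ 4 := by
          rw [← sq_abs]; nlinarith [abs_nonneg (x 1)]
        have e2 : (x 2) ^ 2 ≤ 4 := by
          rw [← sq_abs]; nlinarith [abs_nonneg (x 2)]
        nlinarith
      exact le_of_sq_le_sq this (by linarith)
    · intro x
      have ht := t0_pos
      -- adjust the first coordinate
      set k : ℤ := -⌊x 0 / t0⌋ with hk
      have hk1 : 0 ≤ x 0 + k * t0 := by
        have := Int.floor_le (x 0 / t0)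
        rw [le_div_iff₀ ht] at this
        rw [hk]; push_cast; linarith
      have hk2 : x 0 + k * t0 ≤ t0 := by
        have := Int.lt_floor_add_one (x 0 / t0)
        rw [div_lt_iff₀ ht] at this
        rw [hk]; push_cast; linarith
      set y1 := Real.exp (k * t0) * x 1 with hy1
      set y2 := Real.exp (-(k * t0)) * x 2 with hy2
      -- solve for real `m, n`
      set nr : ℝ := -(y1 - y2) / √5 with hnr
      set mr : ℝ := -y1 - nr * φ with hmr
      have e1 : y1 + (mr + nr * φ) = 0 := by rw [hmr]; ring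
      have e2 : y2 + (mr + nr * ψ) = 0 := by
        have h3 : nr * √5 = -(y1 - y2) := by rw [hnr]; field_simp
        rw [← Real.goldenRatio_sub_goldenConj] at h3
        rw [hmr]; linarith
      set m : ℤ := round mr with hm
      set n : ℤ := round nr with hn
      have hmr1 : |mr - m| ≤ 1 / 2 := abs_sub_round _
      have hnr1 : |nr - n| ≤ 1 / 2 := abs_sub_round _
      have hg : ∃ g : Equiv.Perm (V3), ∀ x, g x = act (k * t0) (m + n * φ) (m + n * ψ) x := by
        refine ⟨⟨act (k * t0) (m + n * φ) (m + n * ψ),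
          act (-(k * t0)) (Real.exp (-(k * t0)) * -(m + n * φ))
            (Real.exp (k * t0) * -(m + n * ψ)), ?_, ?_⟩, fun x => rfl⟩
        · intro x
          rw [act_act, neg_neg]
          rw [← mul_add, ← mul_add]
          simp [act_zero]
        · intro x
          rw [act_act, ← mul_assoc, ← mul_assoc, ← Real.exp_add, ← Real.exp_add]
          simp [act_zero]
      obtain ⟨g, hg⟩ := hg
      refine ⟨g, ⟨k, _, _, ⟨m, n, rfl, rfl⟩, hg⟩, ?_⟩
      rw [hg]
      have hφ := Real.goldenRatio_pos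
      have hφ2 := Real.goldenRatio_lt_two
      have hψ := Real.goldenConj_neg
      have hψ2 := Real.neg_one_lt_goldenConj
      refine ⟨?_, ?_, ?_, ?_⟩
      · simpa [act] using hk1
      · simpa [act] using hk2
      · show |y1 + (m + n * φ)| ≤ 2
        have e : y1 + (m + n * φ) = -((mr - m) + (nr - n) * φ) := by linarith
        rw [e, abs_neg]
        calc |(mr - m) + (nr - n) * φ| ≤ |mr - m| + |(nr - n) * φ| := abs_add_le _ _
          _ ≤ 1 / 2 + 1 / 2 * 2 := by
              rw [abs_mul, abs_of_pos hφ]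
              gcongr
          _ ≤ 2 := by norm_num
      · show |y2 + (m + n * ψ)| ≤ 2
        have e : y2 + (m + n * ψ) = -((mr - m) + (nr - n) * ψ) := by linarith
        rw [e, abs_neg]
        calc |(mr - m) + (nr - n) * ψ| ≤ |mr - m| + |(nr - n) * ψ| := abs_add_le _ _
          _ ≤ 1 / 2 + 1 / 2 * 1 := by
              rw [abs_mul, abs_of_neg hψ]
              have h9 : -ψ ≤ 1 := by linarith
              have h10 : 0 ≤ -ψ := by linarith
              gcongr
          _ ≤ 2 := by norm_num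


/-! ## The Hamiltonian -/

/-- standard basis vectors -/
abbrev bv (i : Fin 3) : V3 := EuclideanSpace.single i (1 : ℝ)

/-- momentum coordinate -/
def evc (i : Fin 3) : Phase →L[ℝ] ℝ :=
  (EuclideanSpace.proj i : V3 →L[ℝ] ℝ) ∘L (ContinuousLinearMap.snd ℝ (V3) (V3))

/-- position coordinate -/
def pos (i : Fin 3) : Phase →L[ℝ] ℝ :=
  (EuclideanSpace.proj i : V3 →L[ℝ] ℝ) ∘L (ContinuousLinearMap.fst ℝ (V3) (V3))

lemma evc_apply (i : Fin 3) (z : Phase) : evc i z = z.2 i := rfl
lemma pos_apply (i : Fin 3) (z : Phase) : pos i z = z.1 i := rfl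

/-- left-invariant momenta -/
def q1 (z : Phase) : ℝ := Real.exp (pos 0 z) * evc 1 z
def q2 (z : Phase) : ℝ := Real.exp (-(pos 0 z)) * evc 2 z

/-- The Hamiltonian. -/
def ham (z : Phase) : ℝ := (1 / 2) * ((evc 0 z) ^ 2 + (q1 z) ^ 2 + (q2 z - 2) ^ 2)

def dq1 (z : Phase) : Phase →L[ℝ] ℝ :=
  Real.exp (pos 0 z) • evc 1 + (q1 z) • pos 0
def dq2 (z : Phase) : Phase →L[ℝ] ℝ :=
  Real.exp (-(pos 0 z)) • evc 2 - (q2 z) • pos 0

lemma hasFDerivAt_q1 (z : Phase) : HasFDerivAt q1 (dq1 z) z := by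
  have h1 : HasFDerivAt (fun z => Real.exp (pos 0 z)) (Real.exp (pos 0 z) • (pos 0)) z :=
    (pos 0).hasFDerivAt.exp
  have h2 := h1.mul (evc 1).hasFDerivAt
  convert! h2 using 1
  ext v
  · simp [dq1, q1]; ring
  · simp [dq1, q1]; ring

lemma hasFDerivAt_q2 (z : Phase) : HasFDerivAt q2 (dq2 z) z := by
  have h1 : HasFDerivAt (fun z => Real.exp (-(pos 0 z))) (Real.exp (-(pos 0 z)) • (-(pos 0))) z :=
    (pos 0).hasFDerivAt.neg.exp
  have h2 := h1.mul (evc 2).hasFDerivAt
  convert! h2 using 1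
  ext v
  · simp [dq2, q2]; ring
  · simp [dq2, q2]; ring

def dham (z : Phase) : Phase →L[ℝ] ℝ :=
  (evc 0 z) • evc 0 + (q1 z) • dq1 z + (q2 z - 2) • dq2 z

lemma hasFDerivAt_ham (z : Phase) : HasFDerivAt ham (dham z) z := by
  have h0 := ((evc 0).hasFDerivAt (x := z)).pow 2
  have h1 := (hasFDerivAt_q1 z).pow 2
  have h2 := ((hasFDerivAt_q2 z).sub_const 2).pow 2
  have h3 := ((h0.add h1).add h2).const_mul (1 / 2 : ℝ)
  convert! h3 using 1
  ext v
  · simp [dham]; ring
  · simp [dham]; ring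

lemma contDiff_q1 : ContDiff ℝ ∞ q1 := by
  have h1 : ContDiff ℝ ∞ (fun z => pos 0 z) := (pos 0).contDiff
  have h2 : ContDiff ℝ ∞ (fun z => evc 1 z) := (evc 1).contDiff
  exact h1.exp.mul h2

lemma contDiff_q2 : ContDiff ℝ ∞ q2 := by
  have h1 : ContDiff ℝ ∞ (fun z => -(pos 0 z)) := (pos 0).contDiff.neg
  have h2 : ContDiff ℝ ∞ (fun z => evc 2 z) := (evc 2).contDiff
  exact h1.exp.mul h2

lemma contDiff_ham : ContDiff ℝ ∞ ham := by
  have h0 : ContDiff ℝ ∞ (fun z => evc 0 z) := (evc 0).contDiff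
  exact contDiff_const.mul (((h0.pow 2).add (contDiff_q1.pow 2)).add
    ((contDiff_q2.sub contDiff_const).pow 2))

/-- the tautological form `p dx` -/
def lam0 : Phase →L[ℝ] (Phase →L[ℝ] ℝ) :=
  ((ContinuousLinearMap.compL ℝ (Phase) (V3) ℝ).flip
    (ContinuousLinearMap.fst ℝ (V3) (V3))) ∘L
    ((innerSL ℝ) ∘L (ContinuousLinearMap.snd ℝ (V3) (V3)))

lemma lam0_apply (z v : Phase) : lam0 z v = inner ℝ z.2 v.1 := rfl

/-- the correction function -/
def ff (z : Phase) : ℝ := -(1 / 2) * (evc 0 z * (1 + 2 * (q2 z)⁻¹))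

def UU : Set (Phase) := {z | 0 < q2 z}

lemma isOpen_UU : IsOpen UU := isOpen_lt continuous_const contDiff_q2.continuous

lemma contDiffAt_ff {z : Phase} (hz : z ∈ UU) : ContDiffAt ℝ ∞ ff z := by
  have h0 : ContDiffAt ℝ ∞ (fun z => evc 0 z) z := (evc 0).contDiff.contDiffAt
  have h1 : ContDiffAt ℝ ∞ (fun z => (q2 z)⁻¹) z :=
    (contDiff_q2.contDiffAt).inv (ne_of_gt hz)
  exact contDiffAt_const.mul (h0.mul (contDiffAt_const.add (contDiffAt_const.mul h1)))

def dff (z : Phase) : Phase →L[ℝ] ℝ :=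
  (-(1 / 2) * (1 + 2 * (q2 z)⁻¹)) • evc 0 + (evc 0 z * ((q2 z) ^ 2)⁻¹) • dq2 z

lemma hasFDerivAt_ff {z : Phase} (hz : z ∈ UU) : HasFDerivAt ff (dff z) z := by
  have hne : q2 z ≠ 0 := ne_of_gt hz
  have h0 := (evc 0).hasFDerivAt (x := z)
  have h1 : HasFDerivAt (fun z => (q2 z)⁻¹) (-((q2 z) ^ 2)⁻¹ • dq2 z) z :=
    (hasDerivAt_inv hne).comp_hasFDerivAt z (hasFDerivAt_q2 z)
  have h2 := (h0.mul ((h1.const_mul 2).const_add 1)).const_mul (-(1 / 2) : ℝ)
  convert! h2 using 1
  ext v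
  · simp [dff]; ring
  · simp [dff]; ring

/-- the contact form -/
def theta (z : Phase) : Phase →L[ℝ] ℝ := lam0 z + fderiv ℝ ff z

lemma contDiffOn_theta : ContDiffOn ℝ ∞ theta UU := by
  have h1 : ContDiffOn ℝ ∞ ff UU := fun z hz => (contDiffAt_ff hz).contDiffWithinAt
  have h2 : ContDiffOn ℝ ∞ (fderiv ℝ ff) UU := h1.fderiv_of_isOpen isOpen_UU (by simp)
  exact lam0.contDiff.contDiffOn.add h2

lemma extD_theta {z : Phase} (hz : z ∈ UU) (v w : Phase) :
    extD theta z v w = omega v w := by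
  have hat := contDiffAt_ff hz
  have hd : DifferentiableAt ℝ (fderiv ℝ ff) z :=
    (hat.fderiv_right (m := 1) (by norm_cast)).differentiableAt (by norm_num)
  have h1 : fderiv ℝ theta z = lam0 + fderiv ℝ (fderiv ℝ ff) z := by
    have := (lam0.hasFDerivAt (x := z)).add hd.hasFDerivAt
    exact this.fderiv
  have hs : IsSymmSndFDerivAt ℝ ff z := hat.isSymmSndFDerivAt (by
    simp only [minSmoothness_of_isRCLikeNormedField]; norm_cast)
  rw [extD, h1]
  simp only [add_apply, lam0_apply, omega]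
  rw [hs v w]
  ring

lemma level_pos {z : Phase} (hz : z ∈ level ham (1 / 2)) :
    (evc 0 z) ^ 2 + (q1 z) ^ 2 + (q2 z - 2) ^ 2 = 1 ∧ 1 ≤ q2 z ∧ q2 z ≤ 3 := by
  have h : ham z = 1 / 2 := hz
  rw [ham] at h
  have h' : (evc 0 z) ^ 2 + (q1 z) ^ 2 + (q2 z - 2) ^ 2 = 1 := by linarith
  refine ⟨h', ?_, ?_⟩
  · nlinarith [sq_nonneg (evc 0 z), sq_nonneg (q1 z)]
  · nlinarith [sq_nonneg (evc 0 z), sq_nonneg (q1 z)]

lemma inner3 (x y : V3) : inner ℝ x y = x 0 * y 0 + x 1 * y 1 + x 2 * y 2 := by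
  simp [PiLp.inner_apply, Fin.sum_univ_three]; ring

lemma inner_bv (p : V3) (i : Fin 3) : inner ℝ p (bv i) = (p i : ℝ) := by
  rw [inner3]
  fin_cases i <;> simp

lemma gradient_coord {f : V3 → ℝ} {f' : V3 →L[ℝ] ℝ} {x : V3} (h : HasFDerivAt f f' x)
    (i : Fin 3) : (gradient f x) i = f' (bv i) := by
  rw [← inner_bv (gradient f x) i, gradient, h.fderiv]
  simp

lemma hamVec_fst (z : Phase) (i : Fin 3) : (hamVec ham z).1 i = dham z (0, bv i) := by
  have h : HasFDerivAt (fun p => ham (z.1, p))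
      ((dham z) ∘L (ContinuousLinearMap.inr ℝ V3 V3)) z.2 :=
    (hasFDerivAt_ham (z.1, z.2)).comp z.2 (hasFDerivAt_prodMk_right z.1 z.2)
  show (gradient (fun p => ham (z.1, p)) z.2) i = _
  rw [gradient_coord h]
  rfl

lemma hamVec_snd (z : Phase) (i : Fin 3) : (hamVec ham z).2 i = -dham z (bv i, 0) := by
  have h : HasFDerivAt (fun x => ham (x, z.2))
      ((dham z) ∘L (ContinuousLinearMap.inl ℝ V3 V3)) z.1 := by
    have h1 : HasFDerivAt (fun x : V3 => (x, z.2)) (ContinuousLinearMap.inl ℝ V3 V3) z.1 :=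
      hasFDerivAt_prodMk_left z.1 z.2
    exact HasFDerivAt.comp (g := ham) (f := fun x : V3 => (x, z.2)) z.1
      (hasFDerivAt_ham (z.1, z.2)) h1
  show (-gradient (fun x => ham (x, z.2)) z.1) i = _
  rw [PiLp.neg_apply, gradient_coord h]
  rfl

lemma hamVec_ham (z : Phase) :
    inner ℝ z.2 (hamVec ham z).1 = (evc 0 z) ^ 2 + (q1 z) ^ 2 + (q2 z - 2) * q2 z ∧
    evc 0 (hamVec ham z) = -((q1 z) ^ 2 - (q2 z - 2) * q2 z) ∧
    evc 2 (hamVec ham z) = 0 ∧ pos 0 (hamVec ham z) = evc 0 z := by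
  refine ⟨?_, ?_, ?_, ?_⟩
  · rw [inner3, hamVec_fst, hamVec_fst, hamVec_fst]
    simp [dham, dq1, dq2, evc_apply, pos_apply, q1, q2]
    ring
  · rw [evc_apply, hamVec_snd]
    simp [dham, dq1, dq2, evc_apply, pos_apply, q1, q2]
    ring
  · rw [evc_apply, hamVec_snd]
    simp [dham, dq1, dq2, evc_apply, pos_apply]
  · rw [pos_apply, hamVec_fst]
    simp [dham, dq1, dq2, evc_apply, pos_apply]

lemma theta_pos {z : Phase} (hz : z ∈ level ham (1 / 2)) : 0 < theta z (hamVec ham z) := by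
  obtain ⟨hlev, hq, hq'⟩ := level_pos hz
  have hU : z ∈ UU := by show 0 < q2 z; linarith
  obtain ⟨h1, h2, h3, h4⟩ := hamVec_ham z
  have hval : theta z (hamVec ham z) = (evc 0 z) ^ 2 + (q1 z) ^ 2 + (q2 z - 2) * q2 z
      + (1 / 2) * ((q1 z) ^ 2 - (q2 z - 2) * q2 z) * (1 + 2 * (q2 z)⁻¹)
      - (evc 0 z) ^ 2 * (q2 z)⁻¹ := by
    rw [theta, (hasFDerivAt_ff hU).fderiv, add_apply, lam0_apply, h1]
    simp only [dff, dq2, add_apply, smul_apply,
      sub_apply, smul_eq_mul, h2, h3, h4]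
    have hne : q2 z ≠ 0 := by linarith
    field_simp
    ring
  rw [hval]
  have hpos : 0 < q2 z := by linarith
  have key : 0 < q2 z * ((evc 0 z) ^ 2 + (q1 z) ^ 2 + (q2 z - 2) * q2 z
      + (1 / 2) * ((q1 z) ^ 2 - (q2 z - 2) * q2 z) * (1 + 2 * (q2 z)⁻¹)
      - (evc 0 z) ^ 2 * (q2 z)⁻¹) := by
    have e : q2 z * ((evc 0 z) ^ 2 + (q1 z) ^ 2 + (q2 z - 2) * q2 z
      + (1 / 2) * ((q1 z) ^ 2 - (q2 z - 2) * q2 z) * (1 + 2 * (q2 z)⁻¹)
      - (evc 0 z) ^ 2 * (q2 z)⁻¹) = q2 z * ((evc 0 z) ^ 2 + (q1 z) ^ 2 + (q2 z - 2) * q2 z)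
      + (1 / 2) * ((q1 z) ^ 2 - (q2 z - 2) * q2 z) * (q2 z + 2) - (evc 0 z) ^ 2 := by
      field_simp
    rw [e]
    set y := q2 z - 2 with hy
    have hq2 : q2 z = y + 2 := by rw [hy]; ring
    rw [hq2] at hq hq' ⊢
    set a := (evc 0 z) ^ 2 with ha
    have ha0 : 0 ≤ a := sq_nonneg _
    have hb : (q1 z) ^ 2 = 1 - y ^ 2 - a := by linarith
    have hb0 : 0 ≤ (q1 z) ^ 2 := sq_nonneg _
    rw [hb] at hb0 ⊢
    have hy1 : -1 ≤ y := by linarith
    have hy2 : y ≤ 1 := by linarith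
    have e2 : (y + 2) * (a + (1 - y ^ 2 - a) + y * (y + 2))
        + 1 / 2 * (1 - y ^ 2 - a - y * (y + 2)) * (y + 2 + 2) - a
        = (1 + y - y ^ 3 / 2) + (1 - y ^ 2 - a) * (3 + y / 2) := by ring
    rw [e2]
    have h5 : 0 < 1 + y - y ^ 3 / 2 := by
      rcases le_or_gt 0 y with h | h
      · have : y ^ 3 ≤ 1 := pow_le_one₀ h hy2
        linarith
      · have h6 : y ^ 3 < 0 := by
          have h7 : 0 < -y := by linarith
          have : 0 < (-y) ^ 3 := pow_pos h7 3
          nlinarith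
        linarith
    have h6 : 0 ≤ (1 - y ^ 2 - a) * (3 + y / 2) := mul_nonneg hb0 (by linarith)
    linarith
  exact (pos_iff_pos_of_mul_pos key).1 hpos


/-! ## Invariance -/

/-- the diagonal map `diag(1, e^c, e^{-c})` -/
def Dm (c : ℝ) : V3 →L[ℝ] V3 :=
  LinearMap.toContinuousLinearMap
    { toFun := fun x => !₂[x 0, Real.exp c * x 1, Real.exp (-c) * x 2]
      map_add' := by
        intro x y; ext i; fin_cases i <;> simp <;> ring
      map_smul' := by
        intro r x; ext i; fin_cases i <;> simp <;> ring }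

lemma Dm_apply (c : ℝ) (x : V3) : Dm c x = !₂[x 0, Real.exp c * x 1, Real.exp (-c) * x 2] := rfl

lemma Dm_inner (c : ℝ) (x y : V3) : inner ℝ (Dm c x) y = (inner ℝ x (Dm c y) : ℝ) := by
  rw [inner3, inner3, Dm_apply, Dm_apply]; simp; ring

lemma Dm_adjoint (c : ℝ) : (Dm c).adjoint = Dm c := by
  symm
  rw [ContinuousLinearMap.eq_adjoint_iff]
  exact Dm_inner c

lemma Dm_neg_Dm (c : ℝ) (x : V3) : Dm (-c) (Dm c x) = x := by
  rw [Dm_apply, Dm_apply]
  ext i
  fin_cases i
  · simp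
  · simp only [neg_neg]
    simp [← mul_assoc, ← Real.exp_add]
  · simp only [neg_neg]
    simp [← mul_assoc, ← Real.exp_add]

lemma hasFDerivAt_act (c a b : ℝ) (x : V3) : HasFDerivAt (act c a b) (Dm c) x := by
  have h1 : act c a b = fun x => Dm c x + !₂[c, a, b] := by
    funext x
    ext i
    fin_cases i <;> simp [act, Dm_apply]
  rw [h1]
  exact (Dm c).hasFDerivAt.add_const _

lemma cotLift_eq {g : Equiv.Perm (V3)} {c a b : ℝ} (hg : ∀ x, g x = act c a b x)
    (z : Phase) : cotLift g z = (act c a b z.1, Dm (-c) z.2) := by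
  have h1 : (g.symm : V3 → V3) =
      act (-c) (Real.exp (-c) * -a) (Real.exp c * -b) := by
    funext y
    rw [Equiv.symm_apply_eq, hg, act_act, ← mul_assoc, ← mul_assoc, ← Real.exp_add,
      ← Real.exp_add]
    simp [act_zero]
  rw [cotLift, h1, (hasFDerivAt_act _ _ _ _).fderiv, Dm_adjoint, hg]

lemma inv_of_mem {g : Equiv.Perm (V3)} {c a b : ℝ} (hg : ∀ x, g x = act c a b x)
    (z : Phase) : evc 0 (cotLift g z) = evc 0 z ∧ q1 (cotLift g z) = q1 z ∧
      q2 (cotLift g z) = q2 z := by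
  rw [cotLift_eq hg]
  refine ⟨?_, ?_, ?_⟩
  · simp [evc_apply, Dm_apply]
  · simp only [q1, evc_apply, pos_apply, Dm_apply, act]
    simp only [Real.exp_neg]
    simp
    have := Real.exp_pos c
    field_simp
    rw [Real.exp_add]
    ring
  · simp only [q2, evc_apply, pos_apply, Dm_apply, act]
    simp only [Real.exp_neg]
    simp
    have := Real.exp_pos c
    have := Real.exp_pos (z.1 0)
    field_simp
    rw [Real.exp_add]
    ring

lemma ham_inv {g : Equiv.Perm (V3)} (h : g ∈ Gam) (z : Phase) :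
    ham (cotLift g z) = ham z := by
  obtain ⟨k, a, b, -, hg⟩ := h
  obtain ⟨h0, h1, h2⟩ := inv_of_mem hg z
  rw [ham, ham, h0, h1, h2]

lemma ff_inv {g : Equiv.Perm (V3)} (h : g ∈ Gam) (z : Phase) :
    ff (cotLift g z) = ff z := by
  obtain ⟨k, a, b, -, hg⟩ := h
  obtain ⟨h0, -, h2⟩ := inv_of_mem hg z
  rw [ff, ff, h0, h2]

lemma theta_inv {g : Equiv.Perm (V3)} (h : g ∈ Gam) {z : Phase} (hz : z ∈ UU)
    (v : Phase) : theta (cotLift g z) (fderiv ℝ (cotLift g) z v) = theta z v := by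
  have hcopy := h
  obtain ⟨k, a, b, -, hg⟩ := h
  set c := (k : ℝ) * t0 with hc
  have hΦ : cotLift g = fun z => (act c a b z.1, Dm (-c) z.2) := funext (cotLift_eq hg)
  set L : Phase →L[ℝ] Phase :=
    ((Dm c) ∘L (ContinuousLinearMap.fst ℝ (V3) (V3))).prod
      ((Dm (-c)) ∘L (ContinuousLinearMap.snd ℝ (V3) (V3))) with hL
  have hd : HasFDerivAt (cotLift g) L z := by
    rw [hΦ]
    exact ((hasFDerivAt_act c a b z.1).comp z hasFDerivAt_fst).prodMk
      ((Dm (-c)).hasFDerivAt.comp z hasFDerivAt_snd)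
  rw [hd.fderiv]
  have hzU : cotLift g z ∈ UU := by
    show 0 < q2 (cotLift g z)
    rw [(inv_of_mem hg z).2.2]
    exact hz
  have hff : fderiv ℝ ff (cotLift g z) (L v) = fderiv ℝ ff z v := by
    have h1 : HasFDerivAt ff (fderiv ℝ ff (cotLift g z)) (cotLift g z) :=
      ((contDiffAt_ff hzU).differentiableAt (by simp)).hasFDerivAt
    have h2 := h1.comp z hd
    have h3 : ff ∘ cotLift g = ff := funext (fun z => ff_inv hcopy z)
    rw [h3] at h2
    rw [h2.fderiv]
    rfl
  rw [theta, theta, add_apply, add_apply, hff, lam0_apply, lam0_apply, cotLift_eq hg]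
  congr 1
  show inner ℝ (Dm (-c) z.2) (Dm c v.1) = (inner ℝ z.2 v.1 : ℝ)
  rw [Dm_inner, Dm_neg_Dm]

lemma iteratedDeriv_two_quad (a b c : ℝ) :
    iteratedDeriv 2 (fun s : ℝ => a + s * b + s ^ 2 * c) 0 = 2 * c := by
  rw [iteratedDeriv_succ, iteratedDeriv_one]
  have hd : deriv (fun s : ℝ => a + s * b + s ^ 2 * c) = fun s => b + 2 * s * c := by
    funext s
    have h3 : HasDerivAt (fun s : ℝ => a + s * b + s ^ 2 * c) (b + 2 * s * c) s := by
      have h4 := (((hasDerivAt_id s).mul_const b).const_add a).add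
        (((hasDerivAt_id s).pow 2).mul_const c)
      convert! h4 using 1
      simp
    exact h3.deriv
  rw [hd]
  have h3 : HasDerivAt (fun s : ℝ => b + 2 * s * c) (2 * c) 0 := by
    have h4 := (((hasDerivAt_id (0 : ℝ)).const_mul 2).mul_const c).const_add b
    convert! h4 using 1
    simp
  exact h3.deriv

lemma ham_eq (x p : V3) : ham (x, p) = (1 / 2) * ((p 0) ^ 2 + (Real.exp (x 0) * p 1) ^ 2
    + (Real.exp (-(x 0)) * p 2 - 2) ^ 2) := rfl

lemma isConvexSuperlinear_ham : IsConvexSuperlinear Gam ham where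
  contDiff := contDiff_ham.of_le (by norm_cast)
  invariant := fun g hg z => ham_inv hg z
  convex := by
    intro x p q hq
    have h1 : (fun s : ℝ => ham (x, p + s • q)) = fun s : ℝ => ham (x, p)
        + s * (p 0 * q 0 + (Real.exp (x 0)) ^ 2 * p 1 * q 1
          + (Real.exp (-(x 0)) * p 2 - 2) * (Real.exp (-(x 0)) * q 2))
        + s ^ 2 * ((1 / 2) * ((q 0) ^ 2 + (Real.exp (x 0) * q 1) ^ 2
          + (Real.exp (-(x 0)) * q 2) ^ 2)) := by
      funext s
      rw [ham_eq, ham_eq]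
      simp only [PiLp.add_apply, PiLp.smul_apply, smul_eq_mul]
      ring
    rw [h1, iteratedDeriv_two_quad]
    have e1 := Real.exp_pos (x 0)
    have e2 := Real.exp_pos (-(x 0))
    by_contra hcon
    push Not at hcon
    have hs : (q 0) ^ 2 + (Real.exp (x 0) * q 1) ^ 2 + (Real.exp (-(x 0)) * q 2) ^ 2 ≤ 0 := by
      linarith
    have h0 : q 0 = 0 := by
      have : (q 0) ^ 2 = 0 := by
        nlinarith [sq_nonneg (q 0), sq_nonneg (Real.exp (x 0) * q 1),
          sq_nonneg (Real.exp (-(x 0)) * q 2)]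
      exact pow_eq_zero_iff (by norm_num) |>.1 this
    have h1' : Real.exp (x 0) * q 1 = 0 := by
      have : (Real.exp (x 0) * q 1) ^ 2 = 0 := by
        nlinarith [sq_nonneg (q 0), sq_nonneg (Real.exp (x 0) * q 1),
          sq_nonneg (Real.exp (-(x 0)) * q 2)]
      exact pow_eq_zero_iff (by norm_num) |>.1 this
    have h2' : Real.exp (-(x 0)) * q 2 = 0 := by
      have : (Real.exp (-(x 0)) * q 2) ^ 2 = 0 := by
        nlinarith [sq_nonneg (q 0), sq_nonneg (Real.exp (x 0) * q 1),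
          sq_nonneg (Real.exp (-(x 0)) * q 2)]
      exact pow_eq_zero_iff (by norm_num) |>.1 this
    have h1'' : q 1 = 0 := (mul_eq_zero.1 h1').resolve_left e1.ne'
    have h2'' : q 2 = 0 := (mul_eq_zero.1 h2').resolve_left e2.ne'
    apply hq
    ext i
    fin_cases i
    · simpa using h0
    · simpa using h1''
    · simpa using h2''
  superlinear := by
    intro K hK C
    obtain ⟨B, hB⟩ := hK.isBounded.exists_norm_le
    set m : ℝ := Real.exp (-B) with hm
    have hmpos : 0 < m := Real.exp_pos _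
    refine ⟨max 2 (4 * (|C| + 1) / m ^ 2), fun x hx p hp => ?_⟩
    have hx0 := (abs_coord_le x 0).trans (hB x hx)
    rw [abs_le] at hx0
    have he1 : m ≤ Real.exp (x 0) := Real.exp_le_exp.2 hx0.1
    have he2 : m ≤ Real.exp (-(x 0)) := Real.exp_le_exp.2 (by linarith)
    have hm1 : m ≤ 1 := by
      rw [hm, ← Real.exp_zero]
      exact Real.exp_le_exp.2 (by linarith [hx0.1, hx0.2])
    have hp2 : 2 ≤ ‖p‖ := (le_max_left _ _).trans hp
    have hp3 : 4 * (|C| + 1) / m ^ 2 ≤ ‖p‖ := (le_max_right _ _).trans hp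
    rw [div_le_iff₀ (by positivity)] at hp3
    have hn : ‖p‖ ^ 2 = (p 0) ^ 2 + (p 1) ^ 2 + (p 2) ^ 2 := by
      rw [EuclideanSpace.norm_sq_eq, Fin.sum_univ_three]
      simp
    rw [ham_eq]
    have hm2 : m ^ 2 ≤ 1 := by nlinarith
    have a1 : m ^ 2 * (p 1) ^ 2 ≤ (Real.exp (x 0) * p 1) ^ 2 := by
      rw [mul_pow]
      apply mul_le_mul_of_nonneg_right _ (sq_nonneg _)
      exact pow_le_pow_left₀ hmpos.le he1 2
    have a2 : m ^ 2 * (p 2) ^ 2 ≤ (Real.exp (-(x 0)) * p 2) ^ 2 := by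
      rw [mul_pow]
      apply mul_le_mul_of_nonneg_right _ (sq_nonneg _)
      exact pow_le_pow_left₀ hmpos.le he2 2
    have a3 : (Real.exp (-(x 0)) * p 2) ^ 2 / 2 - 4 ≤ (Real.exp (-(x 0)) * p 2 - 2) ^ 2 := by
      nlinarith [sq_nonneg (Real.exp (-(x 0)) * p 2 - 4)]
    have a4 : m ^ 2 * (p 0) ^ 2 ≤ (p 0) ^ 2 := by
      nlinarith [sq_nonneg (p 0)]
    have a5 : (1 / 4) * (m ^ 2 * ‖p‖ ^ 2) - 2 ≤ (1 / 2) * ((p 0) ^ 2 + (Real.exp (x 0) * p 1) ^ 2
        + (Real.exp (-(x 0)) * p 2 - 2) ^ 2) := by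
      rw [hn]
      have b0 : 0 ≤ m ^ 2 * (p 0) ^ 2 := by positivity
      have b1 : 0 ≤ m ^ 2 * (p 1) ^ 2 := by positivity
      nlinarith
    have a6 : (|C| + 1) * ‖p‖ ≤ (1 / 4) * (m ^ 2 * ‖p‖ ^ 2) := by
      nlinarith [norm_nonneg p]
    have a7 : C * ‖p‖ ≤ |C| * ‖p‖ := mul_le_mul_of_nonneg_right (le_abs_self C) (norm_nonneg p)
    linarith

lemma isContactType_ham : IsContactType Gam ham (1 / 2) := by
  have hsub : level ham (1 / 2) ⊆ UU := by
    intro z hz
    have := (level_pos hz).2.1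
    show 0 < q2 z
    linarith
  exact ⟨theta, ⟨UU, isOpen_UU, hsub, contDiffOn_theta⟩,
    fun g hg z hz v => theta_inv hg (hsub hz) v,
    fun z hz v w _ _ => extD_theta (hsub hz) v w, fun z hz => theta_pos hz⟩

lemma ham_nonneg (z : Phase) : 0 ≤ ham z := by
  unfold ham; positivity

lemma isLeast_e0 : IsLeast (surjectiveLevels ham) 0 := by
  constructor
  · intro x
    refine ⟨!₂[0, 0, 2 * Real.exp (x 0)], ?_⟩
    rw [ham_eq]
    have : Real.exp (-(x 0)) * (2 * Real.exp (x 0)) = 2 := by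
      rw [mul_left_comm, ← Real.exp_add]; simp
    simp [this]
  · intro k hk
    obtain ⟨p, hp⟩ := hk 0
    rw [← hp]
    exact ham_nonneg _


/-! ## The critical value -/

/-- the point `(s, 0, t)` -/
def pt (s t : ℝ) : V3 := !₂[s, 0, t]

lemma pt_apply0 (s t : ℝ) : pt s t 0 = s := rfl

lemma hasDerivAt_pt_t (s t : ℝ) : HasDerivAt (fun t => pt s t) (bv 2) t := by
  have h : (fun t => pt s t) = fun t => pt s 0 + t • bv 2 := by
    funext t
    ext i
    fin_cases i <;> simp [pt]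
  rw [h]
  simpa using ((hasDerivAt_id t).smul_const (bv 2)).const_add (pt s 0)

lemma hasDerivAt_pt_s (s t : ℝ) : HasDerivAt (fun s => pt s t) (bv 0) s := by
  have h : (fun s => pt s t) = fun s => pt 0 t + s • bv 0 := by
    funext s
    ext i
    fin_cases i <;> simp [pt]
  rw [h]
  simpa using ((hasDerivAt_id s).smul_const (bv 0)).const_add (pt 0 t)

lemma grow_le {f f' : ℝ → ℝ} {c : ℝ} (hf : ∀ t, HasDerivAt f (f' t) t) (h : ∀ t, c ≤ f' t)
    {a b : ℝ} (hab : a ≤ b) : c * (b - a) ≤ f b - f a := by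
  have hm : Monotone (fun t => f t - c * t) := by
    apply monotone_of_hasDerivAt_nonneg (f' := fun t => f' t - c * 1)
    · intro t
      exact (hf t).sub ((hasDerivAt_id t).const_mul c)
    · intro t
      have := h t
      simp only [Pi.zero_apply]
      linarith
  have := hm hab
  simp only at this
  linarith

lemma le_grow {f f' : ℝ → ℝ} {c : ℝ} (hf : ∀ t, HasDerivAt f (f' t) t) (h : ∀ t, f' t ≤ c)
    {a b : ℝ} (hab : a ≤ b) : f b - f a ≤ c * (b - a) := by
  have := grow_le (f := fun t => -f t) (f' := fun t => -f' t) (c := -c)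
    (fun t => (hf t).neg) (fun t => by have := h t; linarith) hab
  linarith

lemma two_le_of_subsolution {k : ℝ} {u : V3 → ℝ} (hu : ContDiff ℝ ∞ u)
    (h : ∀ x, ham (x, gradient u x) ≤ k) : 2 ≤ k := by
  by_contra hk
  push Not at hk
  have hk0 : 0 ≤ k := (ham_nonneg _).trans (h 0)
  set r := √(2 * k) with hr
  have hr2 : r ^ 2 = 2 * k := Real.sq_sqrt (by linarith)
  have hr0 : 0 ≤ r := Real.sqrt_nonneg _
  have hrlt : r < 2 := by nlinarith
  set δ := 2 - r with hδ
  have hδ0 : 0 < δ := by linarith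
  have hδ2 : δ ≤ 2 := by linarith
  have hdiff : ∀ x, HasFDerivAt u (fderiv ℝ u x) x := fun x =>
    (hu.differentiable (by simp) x).hasFDerivAt
  have hgrad : ∀ x (i : Fin 3), fderiv ℝ u x (bv i) = (gradient u x) i := by
    intro x i
    exact (gradient_coord (hdiff x) i).symm
  -- pointwise bounds
  have hb : ∀ x, |(gradient u x) 0| ≤ r ∧ δ ≤ Real.exp (-(x 0)) * (gradient u x) 2 ∧
      Real.exp (-(x 0)) * (gradient u x) 2 ≤ 4 := by
    intro x
    have h1 := h x
    rw [ham_eq] at h1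
    have h2 : ((gradient u x) 0) ^ 2 ≤ r ^ 2 := by
      nlinarith [sq_nonneg (Real.exp (x 0) * (gradient u x) 1),
        sq_nonneg (Real.exp (-(x 0)) * (gradient u x) 2 - 2)]
    have h3 : (Real.exp (-(x 0)) * (gradient u x) 2 - 2) ^ 2 ≤ r ^ 2 := by
      nlinarith [sq_nonneg (Real.exp (x 0) * (gradient u x) 1),
        sq_nonneg ((gradient u x) 0)]
    have h4 := abs_le_of_sq_le_sq h3 hr0
    have h5 := abs_le_of_sq_le_sq h2 hr0
    rw [abs_le] at h4
    refine ⟨h5, ?_, ?_⟩
    · linarith [h4.1]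
    · linarith [h4.2]
  have hpt : ∀ s t, HasDerivAt (fun t => u (pt s t)) ((gradient u (pt s t)) 2) t := by
    intro s t
    have := (hdiff (pt s t)).comp_hasDerivAt t (hasDerivAt_pt_t s t)
    rw [hgrad] at this
    exact this
  have hps : ∀ s t, HasDerivAt (fun s => u (pt s t)) ((gradient u (pt s t)) 0) s := by
    intro s t
    have := (hdiff (pt s t)).comp_hasDerivAt s (hasDerivAt_pt_s s t)
    rw [hgrad] at this
    exact this
  -- choose the height `X` and the length `D`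
  set X : ℝ := 8 / δ with hX
  have hX0 : 0 < X := by positivity
  have hXe : 4 * Real.exp (-X) ≤ δ / 2 := by
    have h1 : X + 1 ≤ Real.exp X := Real.add_one_le_exp X
    have h2 : 8 / δ ≤ Real.exp X := by linarith
    rw [Real.exp_neg, ← div_eq_mul_inv, div_le_iff₀ (Real.exp_pos _)]
    rw [div_le_iff₀ hδ0] at h2
    linarith
  set D : ℝ := 8 * X / δ + 1 with hD
  have hD0 : 0 < D := by positivity
  -- long segment at height 0
  have s1 : δ * (D - 0) ≤ u (pt 0 D) - u (pt 0 0) := by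
    apply grow_le (hpt 0) _ hD0.le
    intro t
    have := (hb (pt 0 t)).2.1
    rw [pt_apply0] at this
    simpa using this
  -- long segment at height -X
  have s2 : u (pt (-X) D) - u (pt (-X) 0) ≤ 4 * Real.exp (-X) * (D - 0) := by
    apply le_grow (hpt (-X)) _ hD0.le
    intro t
    have h1 := (hb (pt (-X) t)).2.2
    rw [pt_apply0, neg_neg] at h1
    have h2 := mul_le_mul_of_nonneg_left h1 (Real.exp_pos (-X)).le
    rw [← mul_assoc, ← Real.exp_add] at h2
    simp at h2
    linarith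
  -- the two vertical segments
  have s3 : ∀ t, |u (pt 0 t) - u (pt (-X) t)| ≤ 2 * X := by
    intro t
    have hneg : -X ≤ 0 := by linarith
    have h1 := le_grow (c := 2) (fun s => hps s t) (fun s => by
      have := (abs_le.1 (hb (pt s t)).1).2; linarith) hneg
    have h2 := grow_le (c := -2) (fun s => hps s t) (fun s => by
      have := (abs_le.1 (hb (pt s t)).1).1; linarith) hneg
    rw [abs_le]
    constructor <;> linarith
  have s4 := abs_le.1 (s3 D)
  have s5 := abs_le.1 (s3 0)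
  have s6 : δ * D ≤ 4 * Real.exp (-X) * D + 4 * X := by linarith [s4.2, s5.1]
  have s7 : 4 * Real.exp (-X) * D ≤ δ / 2 * D := mul_le_mul_of_nonneg_right hXe hD0.le
  have s8 : δ * D = 8 * X + δ := by
    rw [hD]; field_simp
  linarith

lemma isGLB_cu : IsGLB (subsolutionLevels ham) 2 := by
  constructor
  · rintro k ⟨u, hu, h⟩
    exact two_le_of_subsolution hu h
  · intro b hb
    apply hb
    refine ⟨fun _ => 0, contDiff_const, fun x => ?_⟩
    have : gradient (fun _ : V3 => (0 : ℝ)) x = 0 := gradient_const x 0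
    rw [this, ham_eq]
    simp
    norm_num

/-- **Disproof of Q1.** -/
theorem result :
    ∃ (Γ : Subgroup (Equiv.Perm V3)) (H : V3 × V3 → ℝ) (h e₀ c : ℝ),
      IsDeckGroup Γ ∧ IsConvexSuperlinear Γ H ∧ IsLeast (surjectiveLevels H) e₀ ∧
      IsGLB (subsolutionLevels H) c ∧ e₀ < h ∧ h < c ∧ IsContactType Γ H h :=
  ⟨Gam, ham, 1 / 2, 0, 2, isDeckGroup_Gam, isConvexSuperlinear_ham, isLeast_e0, isGLB_cu,
    by norm_num, by norm_num, isContactType_ham⟩

end Pool.Agent.Results.MP_410757_gt.SolContact
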